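import Pool.Agent.helper24.BR.SpecA

set_option autoImplicit false

namespace Pool.Agent.BR

open Pool.Agent.helper58.DC Pool.Agent.DI Pool.Agent.GR Pool.Agent.OB Pool.Agent.DR Pool.Agent.FI Pool.Agent.FI3 Pool.Agent.FI4 Pool.Agent.LE

/-- the action of a subgroup by right translations -/
@[reducible] def LLI_act {G : Type} [Group G] {C T : Subgroup G} (hT : C ≤ T) : MulAction C T where
  smul h z := z * (Subgroup.inclusion hT h)⁻¹
  one_smul z := by
    change z * (Subgroup.inclusion hT 1)⁻¹ = z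
    rw [map_one, inv_one, mul_one]
  mul_smul a b z := by
    change z * (Subgroup.inclusion hT (a * b))⁻¹ = z * (Subgroup.inclusion hT b)⁻¹ * (Subgroup.inclusion hT a)⁻¹
    rw [map_mul, mul_inv_rev, mul_assoc]

/-- a mean over representatives is integral -/
theorem LLI_mean {p : ℕ} {M : Ideal (integralClosure ℤ ℂ)} (hS : Setup p M) {G : Type} [Group G] [Finite G] {C T : Subgroup G} (hT : C ≤ T)
    (J : G → ℂ) (hJ : ∀ τ ∈ T, IntAt M (J τ)) (hc : ∀ τ ∈ T, ∀ c ∈ C, J (τ * c) = J τ) :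
    IntAt M ((∑ᶠ τ ∈ (T : Set G), J τ) / Nat.card C) := by
  classical
  let _ : Fintype C := Fintype.ofFinite C
  let _ : Fintype T := Fintype.ofFinite T
  let _ : MulAction C T := LLI_act hT
  have h0 : ∀ (h : C) (z : T), ((h • z : T) : G) = (z : G) * (h : G)⁻¹ := fun h z => rfl
  have h1 := FRB_orb hS C T (fun z => J (z : G)) (fun h z => by
    change J ((h • z : T) : G) = J (z : G)
    rw [h0]
    exact hc _ z.2 _ (C.inv_mem h.2)) (fun z => by
    have h2 : Nat.card (MulAction.stabilizer C z) = 1 := by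
      have h3 : MulAction.stabilizer C z = ⊥ := by
        rw [Subgroup.eq_bot_iff_forall]
        intro h hh
        have h4 : h • z = z := hh
        have h5 : (z : G) * (h : G)⁻¹ = (z : G) := by
          rw [← h0, h4]
        have h6 : (h : G)⁻¹ = 1 := by
          have h7 := congrArg (fun t => (z : G)⁻¹ * t) h5
          simpa using h7
        exact Subtype.ext (inv_eq_one.1 h6)
      rw [h3]
      exact Subgroup.card_bot
    rw [h2, Nat.cast_one, div_one]
    exact hJ _ z.2)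
  rw [← finsum_set_coe_eq_finsum_mem, finsum_eq_sum_of_fintype]
  exact h1

theorem LLI_int {G : Type} [Group G] [Finite G] (D : Subgroup G) (l : D →* ℂˣ) (v : G) : IsIntegral ℤ (lx D l v) := by
  unfold lx
  split_ifs with h
  · have h1 : (((l ⟨v, h⟩ : ℂˣ) : ℂ)) ^ (Nat.card D) = 1 := by
      have h2 : (l ⟨v, h⟩) ^ (Nat.card D) = 1 := by
        rw [← map_pow, pow_card_eq_one', map_one]
      have h3 := congrArg (fun t : ℂˣ => (t : ℂ)) h2
      simpa using h3
    exact IsIntegral.of_pow (n := Nat.card D) Nat.card_pos (by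
      rw [h1]
      exact isIntegral_one)
  · exact isIntegral_zero

theorem LLI (hLAM : LAM_stmt) (hSPC : SPC_stmt) : LLI_stmt := by
  classical
  intro p M hS G _ _ D x θ χ hL l S hSp hab η hη
  obtain ⟨h1, h2⟩ := hLAM p M hS G D x θ χ hL l S hSp hab η hη
  by_cases hsb : SB M (⊤ : Subgroup G) η θ
  · obtain ⟨g, hg, hLam⟩ := h1 hsb
    have hmem : ∀ u ∈ S, g * u * g⁻¹ ∈ D := by
      intro u hu
      refine hg ⟨u, hu, ?_⟩
      rfl
    have hinv : ∀ τ : G, ∀ c ∈ cz D, ∀ u ∈ S, τ * c * (g * u * g⁻¹) * (τ * c)⁻¹ = τ * (g * u * g⁻¹) * τ⁻¹ := by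
      intro τ c hc u hu
      have h3 := (Subgroup.mem_centralizer_iff.1 hc) _ (hmem u hu)
      calc τ * c * (g * u * g⁻¹) * (τ * c)⁻¹ = τ * (c * (g * u * g⁻¹)) * c⁻¹ * τ⁻¹ := by group
        _ = τ * ((g * u * g⁻¹) * c) * c⁻¹ * τ⁻¹ := by rw [← h3]
        _ = _ := by group
    have hnz : ∀ τ ∈ TT M D θ, ∀ u ∈ S, τ * (g * u * g⁻¹) * τ⁻¹ ∈ D := by
      intro τ hτ u hu
      exact (Subgroup.mem_normalizer_iff.1 hτ.1 _).1 (hmem u hu)
    have hLC : ∀ τ ∈ TT M D θ, LC S (fun u => lx D l (τ * (g * u * g⁻¹) * τ⁻¹)) := by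
      intro τ hτ
      refine ⟨?_, ?_⟩
      · have h3 : τ * (g * 1 * g⁻¹) * τ⁻¹ = 1 := by group
        change lx D l (τ * (g * 1 * g⁻¹) * τ⁻¹) = 1
        rw [h3]
        unfold lx
        rw [dif_pos D.one_mem]
        have h4 : (⟨1, D.one_mem⟩ : D) = 1 := rfl
        rw [h4, map_one, Units.val_one]
      · intro u hu v hv
        change lx D l (τ * (g * (u * v) * g⁻¹) * τ⁻¹) = lx D l (τ * (g * u * g⁻¹) * τ⁻¹) * lx D l (τ * (g * v * g⁻¹) * τ⁻¹)
        have h3 : τ * (g * (u * v) * g⁻¹) * τ⁻¹ = (τ * (g * u * g⁻¹) * τ⁻¹) * (τ * (g * v * g⁻¹) * τ⁻¹) := by group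
        rw [h3]
        have hu' := hnz τ hτ u hu
        have hv' := hnz τ hτ v hv
        unfold lx
        rw [dif_pos hu', dif_pos hv', dif_pos (D.mul_mem hu' hv')]
        have h4 : (⟨τ * (g * u * g⁻¹) * τ⁻¹ * (τ * (g * v * g⁻¹) * τ⁻¹), D.mul_mem hu' hv'⟩ : D) =
            ⟨τ * (g * u * g⁻¹) * τ⁻¹, hu'⟩ * ⟨τ * (g * v * g⁻¹) * τ⁻¹, hv'⟩ := rfl
        rw [h4, map_mul, Units.val_mul]
    refine ⟨?_, ?_⟩
    · intro u hu
      rw [hLam u hu]
      refine LLI_mean hS cz_le_TT (fun τ => lx D l (τ * (g * u * g⁻¹) * τ⁻¹)) (fun τ _ => IntAt.of_isIntegral hS (LLI_int D l _)) ?_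
      intro τ _ c hc
      change lx D l (τ * c * (g * u * g⁻¹) * (τ * c)⁻¹) = lx D l (τ * (g * u * g⁻¹) * τ⁻¹)
      rw [hinv τ c hc u hu]
    · intro k hk c hc ψ hψ
      have h3 := LLI_mean hS (cz_le_TT (M := M) (D := D) (θ := θ))
        (fun τ => (∑ᶠ u ∈ (S : Set G), k u * lx D l (τ * (g * u * g⁻¹) * τ⁻¹) * ψ (u * c)) / Nat.card S) ?_ ?_
      · have h4 : (∑ᶠ u ∈ (S : Set G), k u * Lam M D θ l u η * ψ (u * c)) / Nat.card S =
            (∑ᶠ τ ∈ (TT M D θ : Set G), (∑ᶠ u ∈ (S : Set G), k u * lx D l (τ * (g * u * g⁻¹) * τ⁻¹) * ψ (u * c)) / Nat.card S) / Nat.card (cz D) := by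
          have e1 : ∀ f : G → ℂ, ∑ᶠ u ∈ (S : Set G), f u = ∑ u ∈ (Set.toFinite (S : Set G)).toFinset, f u :=
            fun f => finsum_mem_eq_finite_toFinset_sum _ _
          have e2 : ∀ f : G → ℂ, ∑ᶠ τ ∈ (TT M D θ : Set G), f τ = ∑ τ ∈ (Set.toFinite (TT M D θ : Set G)).toFinset, f τ :=
            fun f => finsum_mem_eq_finite_toFinset_sum _ _
          rw [e2, e1]
          simp only [e1]
          have e3 : ∑ u ∈ (Set.toFinite (S : Set G)).toFinset, k u * Lam M D θ l u η * ψ (u * c) =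
              ∑ u ∈ (Set.toFinite (S : Set G)).toFinset, ∑ τ ∈ (Set.toFinite (TT M D θ : Set G)).toFinset,
                k u * lx D l (τ * (g * u * g⁻¹) * τ⁻¹) * ψ (u * c) / Nat.card (cz D) := by
            refine Finset.sum_congr rfl fun u hu => ?_
            have hu' : u ∈ S := by
              have h5 := (Set.Finite.mem_toFinset _).1 hu
              exact h5
            rw [hLam u hu', e2, ← Finset.sum_div, ← Finset.sum_mul, ← Finset.mul_sum]
            ring
          rw [e3, Finset.sum_comm, Finset.sum_div, Finset.sum_div]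
          refine Finset.sum_congr rfl fun τ _ => ?_
          rw [← Finset.sum_div]
          ring
        rw [h4]
        exact h3
      · intro τ hτ
        refine IntAt.of_isIntegral hS ?_
        exact hSPC G S (fun u => k u * lx D l (τ * (g * u * g⁻¹) * τ⁻¹)) ⟨by
          change k 1 * lx D l (τ * (g * 1 * g⁻¹) * τ⁻¹) = 1
          rw [hk.1, one_mul]
          exact (hLC τ hτ).1, fun u hu v hv => by
          have h5 := (hLC τ hτ).2 u hu v hv
          change k (u * v) * lx D l (τ * (g * (u * v) * g⁻¹) * τ⁻¹) = k u * lx D l (τ * (g * u * g⁻¹) * τ⁻¹) * (k v * lx D l (τ * (g * v * g⁻¹) * τ⁻¹))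
          change lx D l (τ * (g * (u * v) * g⁻¹) * τ⁻¹) = lx D l (τ * (g * u * g⁻¹) * τ⁻¹) * lx D l (τ * (g * v * g⁻¹) * τ⁻¹) at h5
          rw [h5, hk.2 u hu v hv]
          ring⟩ c hc ψ hψ
      · intro τ _ d hd
        change (∑ᶠ u ∈ (S : Set G), k u * lx D l (τ * d * (g * u * g⁻¹) * (τ * d)⁻¹) * ψ (u * c)) / Nat.card S =
          (∑ᶠ u ∈ (S : Set G), k u * lx D l (τ * (g * u * g⁻¹) * τ⁻¹) * ψ (u * c)) / Nat.card S
        congr 1
        refine finsum_mem_congr rfl fun u hu => ?_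
        rw [hinv τ d hd u hu]
  · have h3 := h2 hsb
    refine ⟨fun u hu => ?_, fun k _ c _ ψ _ => ?_⟩
    · rw [h3 u hu]
      exact IntAt.zero hS
    · have h4 : ∑ᶠ u ∈ (S : Set G), k u * Lam M D θ l u η * ψ (u * c) = 0 := by
        rw [← finsum_mem_zero (M := ℂ) (S : Set G)]
        refine finsum_mem_congr rfl fun u hu => ?_
        rw [h3 u hu, mul_zero, zero_mul]
      rw [h4, zero_div]
      exact IntAt.zero hS

end Pool.Agent.BR
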